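import Pool.Agent.H82.FP.Targets

/-!
# Board `flp_modules`, row LIN: four independent directions are mapped to the axes
-/

set_option autoImplicit false

open MeasureTheory Set
open Pool.Agent.H83.G
open Pool.Agent.H22.G4 (nv Ind)
open scoped ENNReal NNReal RealInnerProductSpace

namespace Pool.Agent.H14.FP

open Pool.Agent.H82.FP

namespace LIN

/-- the linear map which maps the axes to the four directions -/
noncomputable def B (c : Fin 4 → E 2) : V4 →ₗ[ℝ] Z 2 where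
  toFun x := ∑ i, x i • Dv (c i)
  map_add' x y := by
    simp only [Pi.add_apply, add_smul, Finset.sum_add_distrib]
  map_smul' r x := by
    simp only [Pi.smul_apply, smul_eq_mul, mul_smul, Finset.smul_sum, RingHom.id_apply]

theorem B_apply (c : Fin 4 → E 2) (x : V4) : B c x = ∑ i, x i • Dv (c i) := rfl

theorem norm_Dv_sum (c : Fin 4 → E 2) (x : V4) :
    ‖∑ i, x i • nv (c i)‖ ≤ ‖∑ i, x i • Dv (c i)‖ := by
  have e1 : (∑ i, x i • nv (c i)) = (∑ i, x i, ∑ i, x i • c i, ∑ i, x i * ‖c i‖ ^ 2) := by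
    simp only [Fin.sum_univ_four, nv, Prod.smul_mk, smul_eq_mul, mul_one, Prod.mk_add_mk]
  have e2 : (∑ i, x i • Dv (c i)) =
      (∑ i, x i * ‖c i‖ ^ 2, (-2 : ℝ) • ∑ i, x i • c i, ∑ i, x i) := by
    simp only [Fin.sum_univ_four, Dv, Prod.smul_mk, smul_eq_mul, mul_one, Prod.mk_add_mk,
      smul_add, smul_comm (-2 : ℝ)]
  rw [e1, e2, Prod.norm_def, Prod.norm_def, Prod.norm_def, Prod.norm_def]
  dsimp only
  rw [norm_smul]
  have h0 : 0 ≤ ‖∑ i, x i • c i‖ := norm_nonneg _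
  have h1 : ‖∑ i, x i • c i‖ ≤ ‖(-2 : ℝ)‖ * ‖∑ i, x i • c i‖ := by
    rw [norm_neg, Real.norm_ofNat]
    linarith
  refine max_le ?_ (max_le ?_ ?_)
  · exact le_trans (le_max_right _ _) (le_max_right _ _)
  · exact le_trans h1 (le_trans (le_max_left _ _) (le_max_right _ _))
  · exact le_max_left _ _

theorem norm_Dv_le (η : E 2) (h : ‖η‖ ≤ 20) : ‖Dv η‖ ≤ 400 := by
  unfold Dv
  rw [Prod.norm_def, Prod.norm_def]
  dsimp only
  rw [norm_smul]
  have h0 : 0 ≤ ‖η‖ := norm_nonneg _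
  refine max_le ?_ (max_le ?_ ?_)
  · rw [Real.norm_eq_abs, abs_of_nonneg (by positivity)]
    nlinarith
  · rw [norm_neg, Real.norm_ofNat]
    linarith
  · rw [norm_one]
    norm_num

theorem norm_B_le (c : Fin 4 → E 2) (hc : ∀ i, ‖c i‖ ≤ 20) (x : V4) : ‖B c x‖ ≤ 1600 * ‖x‖ := by
  rw [B_apply]
  calc ‖∑ i, x i • Dv (c i)‖ ≤ ∑ i, ‖x i • Dv (c i)‖ := norm_sum_le _ _
    _ ≤ ∑ _i : Fin 4, ‖x‖ * 400 := by
        refine Finset.sum_le_sum fun i _ => ?_
        rw [norm_smul]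
        exact mul_le_mul (norm_le_pi_norm x i) (norm_Dv_le _ (hc i)) (norm_nonneg _)
          (norm_nonneg _)
    _ = 1600 * ‖x‖ := by
        rw [Finset.sum_const, Finset.card_univ, Fintype.card_fin, nsmul_eq_mul]
        push_cast
        ring

theorem le_norm_B (K : ℝ) (c : Fin 4 → E 2) (hK : 1 ≤ K) (hI : Ind K⁻¹ c) (x : V4) :
    ‖x‖ ≤ K * ‖B c x‖ := by
  have h1 : K⁻¹ * ∑ i, |x i| ≤ ‖B c x‖ := (hI x).trans (norm_Dv_sum c x)
  have hK0 : 0 < K := by linarith
  have h2 : ‖x‖ ≤ ∑ i, |x i| := by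
    rw [pi_norm_le_iff_of_nonneg (Finset.sum_nonneg fun i _ => abs_nonneg _)]
    intro i
    rw [Real.norm_eq_abs]
    exact Finset.single_le_sum (f := fun i => |x i|) (fun i _ => abs_nonneg _)
      (Finset.mem_univ i)
  calc ‖x‖ ≤ ∑ i, |x i| := h2
    _ = K * (K⁻¹ * ∑ i, |x i|) := by rw [← mul_assoc, mul_inv_cancel₀ hK0.ne', one_mul]
    _ ≤ K * ‖B c x‖ := mul_le_mul_of_nonneg_left h1 hK0.le

theorem haar_Z : (volume : Measure (Z 2)).IsAddHaarMeasure := by
  have hY : (volume : Measure (E 2 × ℝ)).IsAddHaarMeasure :=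
    inferInstanceAs ((volume : Measure (E 2)).prod (volume : Measure ℝ)).IsAddHaarMeasure
  exact inferInstanceAs
    ((volume : Measure ℝ).prod (volume : Measure (E 2 × ℝ))).IsAddHaarMeasure

theorem measure_le (A : Z 2 ≃L[ℝ] V4) (hA : ∀ x, ‖A.symm x‖ ≤ 1600 * ‖x‖) (f : V4 → ℝ≥0∞)
    (hf : Measurable f) :
    ∫⁻ z, f (A z) ≤ volume (Metric.closedBall (0 : Z 2) 1600) * ∫⁻ x, f x := by
  have hmap : ∫⁻ z, f (A z) = ∫⁻ x, f x ∂(Measure.map A volume) := by
    rw [lintegral_map hf A.continuous.measurable]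
  have hZ := haar_Z
  have hH : (Measure.map A (volume : Measure (Z 2))).IsAddHaarMeasure :=
    A.isAddHaarMeasure_map volume
  have h1 := Measure.addHaarMeasure_unique (Measure.map A (volume : Measure (Z 2)))
    (TopologicalSpace.PositiveCompacts.piIcc01 (Fin 4))
  rw [addHaarMeasure_eq_volume_pi] at h1
  rw [hmap, h1, lintegral_smul_measure, smul_eq_mul]
  refine mul_le_mul' ?_ le_rfl
  rw [Measure.map_apply A.continuous.measurable
    (TopologicalSpace.PositiveCompacts.piIcc01 (Fin 4)).isCompact.measurableSet]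
  refine measure_mono fun z hz => ?_
  rw [Metric.mem_closedBall, dist_zero_right]
  have h2 : ‖A z‖ ≤ 1 := by
    rw [pi_norm_le_iff_of_nonneg zero_le_one]
    intro i
    have h3 : A z ∈ Set.pi Set.univ fun _ : Fin 4 => Set.Icc (0 : ℝ) 1 := hz
    have h4 := h3 i (Set.mem_univ i)
    rw [Real.norm_eq_abs, abs_of_nonneg h4.1]
    exact h4.2
  have h5 := hA (A z)
  rw [A.symm_apply_apply] at h5
  linarith

end LIN

theorem pf_LIN : T_LIN := by
  refine ⟨max 1600 (volume (Metric.closedBall (0 : Z 2) 1600)).toReal,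
    le_max_of_le_left (by norm_num), fun K c hK hc hI => ?_⟩
  obtain ⟨C, hC⟩ : ∃ C : ℝ, C = max 1600 (volume (Metric.closedBall (0 : Z 2) 1600)).toReal :=
    ⟨_, rfl⟩
  rw [← hC]
  have hC1 : 1600 ≤ C := hC ▸ le_max_left _ _
  have hC2 : (volume (Metric.closedBall (0 : Z 2) 1600)).toReal ≤ C := hC ▸ le_max_right _ _
  have hinj : Function.Injective (LIN.B c) := by
    rw [← LinearMap.ker_eq_bot, LinearMap.ker_eq_bot']
    intro x hx
    have h1 := LIN.le_norm_B K c hK hI x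
    rw [hx, norm_zero, mul_zero] at h1
    exact norm_le_zero_iff.1 h1
  have hdim : Module.finrank ℝ V4 = Module.finrank ℝ (Z 2) := by
    simp [V4, Z, E]
  obtain ⟨e, he⟩ : ∃ e : V4 ≃ₗ[ℝ] Z 2, ∀ x, e x = LIN.B c x :=
    ⟨LinearEquiv.ofInjectiveOfFinrankEq (LIN.B c) hinj hdim, fun x => rfl⟩
  obtain ⟨A, hA1, hA2⟩ : ∃ A : Z 2 ≃L[ℝ] V4, (∀ z, LIN.B c (A z) = z) ∧
      ∀ x, A.symm x = LIN.B c x := by
    refine ⟨e.symm.toContinuousLinearEquiv, fun z => ?_, fun x => ?_⟩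
    · rw [← he]
      exact e.apply_symm_apply z
    · rw [← he]
      rfl
  refine ⟨A, fun i => ?_, fun z => ?_, fun x => ?_, fun f hf => ?_⟩
  · apply A.symm.injective
    rw [A.symm_apply_apply, hA2, LIN.B_apply, Finset.sum_eq_single i]
    · rw [Pi.single_eq_same, one_smul]
    · intro j _ hj
      rw [Pi.single_eq_of_ne hj, zero_smul]
    · intro h
      exact absurd (Finset.mem_univ i) h
  · have h1 := LIN.le_norm_B K c hK hI (A z)
    rw [hA1] at h1
    refine h1.trans ?_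
    have h2 : 0 ≤ ‖z‖ := norm_nonneg z
    have h3 : 0 ≤ K * ‖z‖ := by positivity
    nlinarith
  · rw [hA2]
    have h1 := LIN.norm_B_le c hc x
    have h2 : 0 ≤ ‖x‖ := norm_nonneg x
    nlinarith
  · have hA3 : ∀ x, ‖A.symm x‖ ≤ 1600 * ‖x‖ := by
      intro x
      rw [hA2]
      exact LIN.norm_B_le c hc x
    refine (LIN.measure_le A hA3 f hf).trans (mul_le_mul' ?_ le_rfl)
    have hZ := LIN.haar_Z
    rw [← ENNReal.ofReal_toReal (measure_closedBall_lt_top (x := (0 : Z 2)) (r := 1600)).ne]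
    exact ENNReal.ofReal_le_ofReal hC2

end Pool.Agent.H14.FP
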