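import Pool.Agent.H82.FP.Targets

/-!
# Board `flp_modules`, row MKC: multilinear Kakeya for light rays in small caps
-/

set_option autoImplicit false

open MeasureTheory Set
open Pool.Agent.H83.G
open Pool.Agent.H22.G4 (nv Ind)
open scoped ENNReal NNReal RealInnerProductSpace

namespace Pool.Agent.H14.FP

open Pool.Agent.H82.FP

namespace MKC

/-- the direction of a light ray in the new coordinates -/
noncomputable def Ud (A : Z 2 ≃L[ℝ] V4) (i : Fin 4) (η : E 2) : V4 :=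
  (A (Dv η) i)⁻¹ • A (Dv η)

/-- the line of a light ray in the new coordinates -/
noncomputable def Ph (A : Z 2 ≃L[ℝ] V4) (lam : ℝ) (i : Fin 4) (p : Z 2 × E 2) : Ln :=
  (lam⁻¹ • A p.1, Ud A i p.2)

theorem continuous_Dv : Continuous (Dv : E 2 → Z 2) := by
  unfold Dv
  fun_prop

theorem measurable_Ud (A : Z 2 ≃L[ℝ] V4) (i : Fin 4) : Measurable (Ud A i) := by
  unfold Ud
  have h1 : Continuous fun η : E 2 => A (Dv η) := A.continuous.comp continuous_Dv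
  have h2 : Continuous fun η : E 2 => A (Dv η) i := (continuous_apply i).comp h1
  exact h2.measurable.inv.smul h1.measurable

theorem measurable_Ph (A : Z 2 ≃L[ℝ] V4) (lam : ℝ) (i : Fin 4) : Measurable (Ph A lam i) := by
  unfold Ph
  have h0 : Continuous fun p : Z 2 × E 2 => A p.1 := A.continuous.comp continuous_fst
  have h1 : Continuous fun p : Z 2 × E 2 => lam⁻¹ • A p.1 := h0.const_smul lam⁻¹
  exact h1.measurable.prodMk ((measurable_Ud A i).comp measurable_snd)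

theorem norm_Dv_sub (η c : E 2) (hc : ‖c‖ ≤ 20) (h : ‖η - c‖ ≤ 1) :
    ‖Dv η - Dv c‖ ≤ 41 * ‖η - c‖ := by
  have h0 : 0 ≤ ‖η - c‖ := norm_nonneg _
  have h1 : ‖η‖ ≤ ‖c‖ + ‖η - c‖ := by
    calc ‖η‖ = ‖c + (η - c)‖ := by congr 1; abel
      _ ≤ _ := norm_add_le _ _
  have h2 : |‖η‖ - ‖c‖| ≤ ‖η - c‖ := abs_norm_sub_norm_le η c
  have e : Dv η - Dv c = (‖η‖ ^ 2 - ‖c‖ ^ 2, (-2 : ℝ) • (η - c), 0) := by
    unfold Dv
    rw [Prod.mk_sub_mk, Prod.mk_sub_mk, smul_sub, sub_self]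
  rw [e, Prod.norm_def, Prod.norm_def]
  dsimp only
  rw [norm_smul]
  refine max_le ?_ (max_le ?_ ?_)
  · rw [Real.norm_eq_abs]
    have e2 : ‖η‖ ^ 2 - ‖c‖ ^ 2 = (‖η‖ - ‖c‖) * (‖η‖ + ‖c‖) := by ring
    rw [e2, abs_mul]
    have h3 : |‖η‖ + ‖c‖| ≤ 41 := by
      rw [abs_of_nonneg (by positivity)]
      linarith
    calc |‖η‖ - ‖c‖| * |‖η‖ + ‖c‖| ≤ ‖η - c‖ * 41 :=
          mul_le_mul h2 h3 (abs_nonneg _) h0
      _ = 41 * ‖η - c‖ := mul_comm _ _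
  · rw [norm_neg, Real.norm_ofNat]
    linarith
  · rw [norm_zero]
    positivity

/-- the direction of a light ray of the small cap -/
theorem Ud_spec (A : Z 2 ≃L[ℝ] V4) (C K δ ρ : ℝ) (c η : E 2) (i : Fin 4) (hK : 1 ≤ K)
    (hC : 1 ≤ C) (hAi : A (Dv c) = Pi.single i 1) (hAn : ∀ z, ‖A z‖ ≤ C * K * ‖z‖)
    (hc : ‖c‖ ≤ 20) (hδ : 0 < δ) (hδ1 : δ ≤ 1) (hη : ‖η - c‖ ≤ δ / K ^ 2)
    (hρ : 82 * C * δ = ρ) (hρ1 : ρ ≤ 1) :
    A (Dv η) i • Ud A i η = A (Dv η) ∧ Ud A i η i = 1 ∧ ∀ j, j ≠ i → |Ud A i η j| ≤ ρ := by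
  have hK0 : 0 < K := by linarith
  have h1 : δ / K ^ 2 ≤ δ / K := by
    apply div_le_div_of_nonneg_left hδ.le hK0
    nlinarith
  have h1' : δ / K ≤ 1 := (div_le_one hK0).2 (hδ1.trans hK)
  have h2 : ‖Dv η - Dv c‖ ≤ 41 * (δ / K) :=
    (norm_Dv_sub η c hc (hη.trans (h1.trans h1'))).trans
      (mul_le_mul_of_nonneg_left (hη.trans h1) (by norm_num))
  have h3 : ‖A (Dv η) - Pi.single i 1‖ ≤ ρ / 2 := by
    rw [← hAi, ← map_sub]
    refine (hAn _).trans ?_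
    calc C * K * ‖Dv η - Dv c‖ ≤ C * K * (41 * (δ / K)) :=
          mul_le_mul_of_nonneg_left h2 (by positivity)
      _ = 41 * C * δ := by field_simp
      _ = ρ / 2 := by rw [← hρ]; ring
  have h4 : ∀ j, |A (Dv η) j - (Pi.single i 1 : V4) j| ≤ ρ / 2 := by
    intro j
    have h5 := norm_le_pi_norm (A (Dv η) - Pi.single i 1) j
    rw [Pi.sub_apply, Real.norm_eq_abs] at h5
    exact h5.trans h3
  have h5 : 1 / 2 ≤ A (Dv η) i := by
    have h6 := h4 i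
    rw [Pi.single_eq_same, abs_le] at h6
    linarith
  have h6 : A (Dv η) i ≠ 0 := by linarith
  refine ⟨?_, ?_, fun j hj => ?_⟩
  · unfold Ud
    rw [smul_smul, mul_inv_cancel₀ h6, one_smul]
  · unfold Ud
    rw [Pi.smul_apply, smul_eq_mul, inv_mul_cancel₀ h6]
  · unfold Ud
    rw [Pi.smul_apply, smul_eq_mul, abs_mul, abs_inv]
    have h7 := h4 j
    rw [Pi.single_eq_of_ne hj, sub_zero] at h7
    have h8 : |A (Dv η) i|⁻¹ ≤ 2 := by
      rw [inv_le_comm₀ (abs_pos.2 h6) (by norm_num), abs_of_nonneg (by linarith)]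
      linarith
    calc |A (Dv η) i|⁻¹ * |A (Dv η) j| ≤ 2 * (ρ / 2) :=
          mul_le_mul h8 h7 (abs_nonneg _) (by norm_num)
      _ = ρ := by ring

/-- the tubes in the new coordinates -/
theorem tube (A : Z 2 ≃L[ℝ] V4) (C K W lam : ℝ) (hK : 1 ≤ K) (hC : 1 ≤ C) (hW : 1 ≤ W)
    (hAn : ∀ z, ‖A z‖ ≤ C * K * ‖z‖) (hlam : lam = 2 * C * K * W) (i : Fin 4) (p : Z 2 × E 2)
    (h1 : A (Dv p.2) i • Ud A i p.2 = A (Dv p.2)) (h2 : ‖Ud A i p.2‖ ≤ 1) (z : Z 2)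
    (hz : p ∈ TZ W z) : Ph A lam i p ∈ TU 1 i (lam⁻¹ • A z) := by
  have hl : 0 < lam := by rw [hlam]; positivity
  obtain ⟨t, ht⟩ : ∃ t, t = z.2.2 - p.1.2.2 := ⟨_, rfl⟩
  obtain ⟨u, hu⟩ : ∃ u, u = Ud A i p.2 := ⟨_, rfl⟩
  obtain ⟨a, ha⟩ : ∃ a, a = A (Dv p.2) i := ⟨_, rfl⟩
  rw [← ha, ← hu] at h1
  rw [← hu] at h2
  obtain ⟨r, hr⟩ : ∃ r, r = A z - A p.1 - t • A (Dv p.2) := ⟨_, rfl⟩
  have hz' : ‖z - p.1 - t • Dv p.2‖ ≤ W := by rw [ht]; exact hz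
  have hrn : ‖r‖ ≤ C * K * W := by
    rw [hr, ← map_smul, ← map_sub, ← map_sub]
    exact (hAn _).trans (mul_le_mul_of_nonneg_left hz' (by positivity))
  have e1 : A z - A p.1 = t • a • u + r := by
    rw [h1, hr]
    abel
  have hi : (A z) i - (A p.1) i = t * a + r i := by
    have h3 := congrFun e1 i
    rw [Pi.sub_apply, Pi.add_apply, h1, Pi.smul_apply, smul_eq_mul, ← ha] at h3
    exact h3
  have e2 : A z - A p.1 - ((A z) i - (A p.1) i) • u = r - r i • u := by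
    rw [hi, e1, add_smul, mul_smul]
    abel
  change ‖lam⁻¹ • A z - lam⁻¹ • A p.1 -
    ((lam⁻¹ • A z) i - (lam⁻¹ • A p.1) i) • Ud A i p.2‖ ≤ 1
  have e3 : lam⁻¹ • A z - lam⁻¹ • A p.1 -
      ((lam⁻¹ • A z) i - (lam⁻¹ • A p.1) i) • Ud A i p.2 = lam⁻¹ • (r - r i • u) := by
    rw [← e2, ← hu, Pi.smul_apply, Pi.smul_apply, smul_eq_mul, smul_eq_mul, ← mul_sub, smul_sub,
      smul_sub, mul_smul]
  rw [e3, norm_smul, norm_inv, Real.norm_eq_abs, abs_of_pos hl, inv_mul_le_iff₀ hl, mul_one]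
  have h4 : ‖r i‖ ≤ ‖r‖ := norm_le_pi_norm r i
  calc ‖r - r i • u‖ ≤ ‖r‖ + ‖r i • u‖ := norm_sub_le _ _
    _ ≤ ‖r‖ + ‖r‖ * 1 := by
        rw [norm_smul]
        exact add_le_add le_rfl (mul_le_mul h4 h2 (norm_nonneg _) (norm_nonneg _))
    _ ≤ lam := by
        rw [hlam]
        linarith

theorem measurable_TU (μ : Measure Ln) [IsFiniteMeasure μ] (i : Fin 4) :
    Measurable fun x : V4 => μ (TU 1 i x) := by
  have h1 : Continuous fun q : V4 × Ln => ‖q.1 - q.2.1 - (q.1 i - q.2.1 i) • q.2.2‖ := by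
    fun_prop
  have h2 : MeasurableSet {q : V4 × Ln | ‖q.1 - q.2.1 - (q.1 i - q.2.1 i) • q.2.2‖ ≤ 1} :=
    (isClosed_le h1 continuous_const).measurableSet
  exact measurable_measure_prodMk_left h2

theorem measurableSet_TU (i : Fin 4) (x : V4) : MeasurableSet (TU 1 i x) := by
  have h1 : Continuous fun ℓ : Ln => ‖x - ℓ.1 - (x i - ℓ.1 i) • ℓ.2‖ := by
    fun_prop
  exact (isClosed_le h1 continuous_const).measurableSet

theorem measurableSet_Qc (c : V4) (ρ : ℝ) : MeasurableSet (Qc c ρ) := by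
  have e : Qc c ρ = Set.pi Set.univ fun j => Set.Ico (c j) (c j + ρ) := by
    ext x
    simp [Qc, Set.mem_pi]
  rw [e]
  exact MeasurableSet.univ_pi fun j => measurableSet_Ico

end MKC

theorem pf_MKC (hMKI : T_MKI) (hLIN : T_LIN) : T_MKC := by
  intro ε hε
  obtain ⟨δ₀, C₀, hδ₀, hδ₀1, hC₀, hM⟩ := hMKI ε hε
  obtain ⟨C₁, hC₁, hL⟩ := hLIN
  have hC₁0 : 0 < C₁ := by linarith
  refine ⟨δ₀ / (82 * C₁), 16 * C₁ ^ 5 * C₀ * 2 ^ ε, 4, by positivity, ?_, by positivity,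
    by norm_num, ?_⟩
  · rw [div_le_one (by positivity)]
    linarith
  intro K N W z₀ c ν _ hK hN hW hc hI hν
  obtain ⟨A, hA1, hA2, -, hA4⟩ := hL K c hK hc hI
  obtain ⟨lam, hlam⟩ : ∃ lam, lam = 2 * C₁ * K * W := ⟨_, rfl⟩
  have hl : 0 < lam := by rw [hlam]; positivity
  let μ : Fin 4 → Measure Ln := fun i => Measure.map (MKC.Ph A lam i) (ν i)
  have hμfin : ∀ i, IsFiniteMeasure (μ i) := fun i =>
    Measure.isFiniteMeasure_map (ν i) (MKC.Ph A lam i)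
  have hμu : ∀ i, μ i univ = ν i univ := fun i => by
    rw [Measure.map_apply (MKC.measurable_Ph A lam i) MeasurableSet.univ, Set.preimage_univ]
  have hδδ : 82 * C₁ * (δ₀ / (82 * C₁)) = δ₀ := by field_simp
  have hδ1 : δ₀ / (82 * C₁) ≤ 1 := by
    rw [div_le_one (by positivity)]
    linarith
  have hspec : ∀ i, ∀ᵐ p ∂(ν i), A (Dv p.2) i • MKC.Ud A i p.2 = A (Dv p.2) ∧
      MKC.Ud A i p.2 i = 1 ∧ ∀ j, j ≠ i → |MKC.Ud A i p.2 j| ≤ δ₀ := by
    intro i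
    filter_upwards [hν i] with p hp
    exact MKC.Ud_spec A C₁ K (δ₀ / (82 * C₁)) δ₀ (c i) p.2 i hK hC₁ (hA1 i) hA2 (hc i)
      (by positivity) hδ1 hp hδδ hδ₀1
  have hNAx : NAx δ₀ μ := by
    intro i
    have hset : MeasurableSet {ℓ : Ln | ℓ.2 i = 1 ∧ ∀ j, j ≠ i → |ℓ.2 j| ≤ δ₀} := by
      have h1 : IsClosed {ℓ : Ln | ℓ.2 i = 1} :=
        isClosed_eq (by fun_prop) continuous_const
      have h2 : ∀ j : Fin 4, IsClosed {ℓ : Ln | j ≠ i → |ℓ.2 j| ≤ δ₀} := by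
        intro j
        by_cases hj : j = i
        · have : {ℓ : Ln | j ≠ i → |ℓ.2 j| ≤ δ₀} = univ := by
            ext ℓ
            simp [hj]
          rw [this]
          exact isClosed_univ
        · have : {ℓ : Ln | j ≠ i → |ℓ.2 j| ≤ δ₀} = {ℓ : Ln | |ℓ.2 j| ≤ δ₀} := by
            ext ℓ
            simp [hj]
          rw [this]
          exact isClosed_le (by fun_prop) continuous_const
      have h3 : {ℓ : Ln | ℓ.2 i = 1 ∧ ∀ j, j ≠ i → |ℓ.2 j| ≤ δ₀} =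
          {ℓ : Ln | ℓ.2 i = 1} ∩ ⋂ j, {ℓ : Ln | j ≠ i → |ℓ.2 j| ≤ δ₀} := by
        ext ℓ
        simp
      rw [h3]
      exact (h1.inter (isClosed_iInter h2)).measurableSet
    rw [ae_map_iff (MKC.measurable_Ph A lam i).aemeasurable hset]
    filter_upwards [hspec i] with p hp
    exact hp.2
  have hle : ∀ i z, ν i (TZ W z) ≤ μ i (TU 1 i (lam⁻¹ • A z)) := by
    intro i z
    rw [Measure.map_apply (MKC.measurable_Ph A lam i) (MKC.measurableSet_TU i _)]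
    refine measure_mono_ae ?_
    filter_upwards [hspec i] with p hp hpz
    refine MKC.tube A C₁ K W lam hK hC₁ hW hA2 hlam i p hp.1 ?_ z hpz
    rw [pi_norm_le_iff_of_nonneg zero_le_one]
    intro j
    rw [Real.norm_eq_abs]
    by_cases hj : j = i
    · rw [hj, hp.2.1, abs_one]
    · exact (hp.2.2 j hj).trans hδ₀1
  obtain ⟨c₀, hc₀⟩ : ∃ c₀ : V4, ∀ j, c₀ j = (lam⁻¹ • A z₀) j - N / 2 :=
    ⟨fun j => (lam⁻¹ • A z₀) j - N / 2, fun j => rfl⟩
  let g : V4 → ℝ≥0∞ := fun x => ∏ i, μ i (TU 1 i x) ^ (1 / 3 : ℝ)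
  have hg : Measurable g := by
    refine Finset.measurable_prod _ fun i _ => ?_
    exact (MKC.measurable_TU (μ i) i).pow_const _
  let F : V4 → ℝ≥0∞ := (Qc c₀ (2 * N)).indicator g
  have hF : Measurable F := hg.indicator (MKC.measurableSet_Qc _ _)
  have hball : ∀ z, ‖z - z₀‖ ≤ N → lam⁻¹ • A z ∈ Qc c₀ (2 * N) := by
    intro z hz j
    rw [hc₀]
    have h1 : ‖A z - A z₀‖ ≤ C₁ * K * N := by
      rw [← map_sub]
      exact (hA2 _).trans (mul_le_mul_of_nonneg_left hz (by positivity))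
    have h2 : |(lam⁻¹ • A z) j - (lam⁻¹ • A z₀) j| ≤ N / 2 := by
      have h3 := norm_le_pi_norm (lam⁻¹ • (A z - A z₀)) j
      rw [smul_sub, Pi.sub_apply, Real.norm_eq_abs] at h3
      refine h3.trans ?_
      rw [← smul_sub, norm_smul, norm_inv, Real.norm_eq_abs, abs_of_pos hl, inv_mul_le_iff₀ hl]
      refine h1.trans ?_
      rw [hlam]
      have h4 : C₁ * K * N * 1 ≤ C₁ * K * N * W :=
        mul_le_mul_of_nonneg_left hW (by positivity)
      linarith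
    rw [abs_le] at h2
    constructor <;> linarith
  have step1 : ∫⁻ z in {z | ‖z - z₀‖ ≤ N}, ∏ i, ν i (TZ W z) ^ (1 / 3 : ℝ) ≤
      ∫⁻ z, F (lam⁻¹ • A z) := by
    have hms : MeasurableSet {z : Z 2 | ‖z - z₀‖ ≤ N} :=
      (isClosed_le (by fun_prop) continuous_const).measurableSet
    rw [← lintegral_indicator hms]
    refine lintegral_mono fun z => ?_
    by_cases hz : z ∈ {z : Z 2 | ‖z - z₀‖ ≤ N}
    · rw [Set.indicator_of_mem hz]
      change _ ≤ (Qc c₀ (2 * N)).indicator g (lam⁻¹ • A z)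
      rw [Set.indicator_of_mem (hball z hz)]
      exact Finset.prod_le_prod' fun i _ => ENNReal.rpow_le_rpow (hle i z) (by norm_num)
    · rw [Set.indicator_of_notMem hz]
      exact zero_le
  have step2 : ∫⁻ z, F (lam⁻¹ • A z) ≤ ENNReal.ofReal C₁ * ∫⁻ x, F (lam⁻¹ • x) :=
    hA4 (fun x => F (lam⁻¹ • x)) (hF.comp (measurable_const_smul _))
  have step3 : ∫⁻ x, F (lam⁻¹ • x) = ENNReal.ofReal (lam ^ 4) * ∫⁻ x, F x := by
    have h1 : ∫⁻ x, F (lam⁻¹ • x) = ∫⁻ x, F x ∂(Measure.map (fun x : V4 => lam⁻¹ • x) volume) := by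
      rw [lintegral_map hF (measurable_const_smul _)]
    rw [h1, Measure.map_addHaar_smul volume (inv_ne_zero hl.ne'), lintegral_smul_measure,
      smul_eq_mul, Module.finrank_fin_fun]
    congr 2
    rw [inv_pow, inv_inv, abs_of_pos (by positivity)]
  have step4 : ∫⁻ x, F x ≤ ENNReal.ofReal (C₀ * (2 * N) ^ ε) * ∏ i, ν i univ ^ (1 / 3 : ℝ) := by
    have h1 := hM (2 * N) c₀ μ (by linarith) hNAx
    simp only [hμu] at h1
    rw [← lintegral_indicator (MKC.measurableSet_Qc _ _)] at h1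
    exact h1
  calc ∫⁻ z in {z | ‖z - z₀‖ ≤ N}, ∏ i, ν i (TZ W z) ^ (1 / 3 : ℝ)
      ≤ ENNReal.ofReal C₁ * ∫⁻ x, F (lam⁻¹ • x) := step1.trans step2
    _ ≤ ENNReal.ofReal C₁ * (ENNReal.ofReal (lam ^ 4) *
        (ENNReal.ofReal (C₀ * (2 * N) ^ ε) * ∏ i, ν i univ ^ (1 / 3 : ℝ))) := by
        rw [step3]
        exact mul_le_mul' le_rfl (mul_le_mul' le_rfl step4)
    _ = ENNReal.ofReal (16 * C₁ ^ 5 * C₀ * 2 ^ ε * K ^ (4 : ℝ) * W ^ (4 : ℝ) * N ^ ε) *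
        ∏ i, ν i univ ^ (1 / 3 : ℝ) := by
        rw [← mul_assoc, ← mul_assoc, ← ENNReal.ofReal_mul hC₁0.le,
          ← ENNReal.ofReal_mul (by positivity)]
        congr 2
        have e4 : ∀ x : ℝ, x ^ (4 : ℝ) = x ^ 4 := fun x => by
          rw [← Real.rpow_natCast x 4]
          norm_num
        rw [hlam, e4, e4, Real.mul_rpow (by norm_num) (by linarith)]
        ring

end Pool.Agent.H14.FP
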